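import Pool.Agent.H.MP_58d537_lc.Numeric

/-!
# Partial averages and a conditional Efron-Stein inequality
-/

set_option autoImplicit false

open Finset

namespace Pool.Agent.H.MP_58d537_lc

noncomputable section

variable {N : ℕ}

lemma ovw_flip_left {A : Finset (Fin N)} {j : Fin N} (hj : j ∈ A) (y x : Fin N → Bool) :
    ovw A (flip j y) x = flip j (ovw A y x) := by
  funext i
  unfold ovw flip
  by_cases hij : i = j
  · subst hij; simp [hj]
  · simp [hij]

lemma ovw_flip_left_not {A : Finset (Fin N)} {j : Fin N} (hj : j ∉ A) (y x : Fin N → Bool) :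
    ovw A (flip j y) x = ovw A y x := by
  funext i
  unfold ovw
  by_cases hi : i ∈ A
  · have : i ≠ j := fun h => hj (h ▸ hi)
    simp [hi, flip, this]
  · simp [hi]

lemma ovw_ovw (L A : Finset (Fin N)) (y' y x : Fin N → Bool) :
    ovw L y' (ovw A y x) = ovw (L ∪ A) (ovw L y' y) x := by
  funext i
  unfold ovw
  by_cases h1 : i ∈ L <;> by_cases h2 : i ∈ A <;> simp [h1, h2]

/-- averaging twice over complementary sets of coordinates -/
lemma avg_avg_ovw (L : Finset (Fin N)) (g : (Fin N → Bool) → ℝ) :
    avg (fun x => avg (fun y => g (ovw L y x))) = avg g := by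
  have hsum : ∑ x : Fin N → Bool, ∑ y : Fin N → Bool, g (ovw L y x)
      = ∑ x : Fin N → Bool, ∑ _y : Fin N → Bool, g x := by
    rw [← Fintype.sum_prod_type' (f := fun x y => g (ovw L y x)),
      ← Fintype.sum_prod_type' (f := fun x _ => g x)]
    let e : ((Fin N → Bool) × (Fin N → Bool)) → ((Fin N → Bool) × (Fin N → Bool)) :=
      fun q => (ovw L q.2 q.1, ovw L q.1 q.2)
    have he : Function.Involutive e := by
      intro q
      refine Prod.ext ?_ ?_
      · funext i
        by_cases hi : i ∈ L <;> simp [e, ovw, hi]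
      · funext i
        by_cases hi : i ∈ L <;> simp [e, ovw, hi]
    exact Equiv.sum_comp (Function.Involutive.toPerm e he)
      (fun q : (Fin N → Bool) × (Fin N → Bool) => g q.1)
  unfold avg
  rw [← Finset.sum_div, hsum]
  simp only [Finset.sum_const, Finset.card_univ, Fintype.card_pi, Fintype.card_bool,
    Finset.prod_const, Fintype.card_fin, nsmul_eq_mul]
  push_cast
  rw [← Finset.mul_sum]
  field_simp

/-- average over the coordinates in `L` -/
def pav (L : Finset (Fin N)) (g : (Fin N → Bool) → ℝ) (x : Fin N → Bool) : ℝ :=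
  avg (fun y => g (ovw L y x))

lemma pav_empty (g : (Fin N → Bool) → ℝ) : pav ∅ g = g := by
  funext x
  unfold pav ovw
  simp [avg_const]

lemma avg_pav (L : Finset (Fin N)) (g : (Fin N → Bool) → ℝ) : avg (pav L g) = avg g :=
  avg_avg_ovw L g

lemma pav_union (L A : Finset (Fin N)) (g : (Fin N → Bool) → ℝ) (x : Fin N → Bool) :
    pav (L ∪ A) g x = avg (fun y => pav L g (ovw A y x)) := by
  have h := avg_avg_ovw L (fun z => g (ovw (L ∪ A) z x))
  unfold pav
  simp only [ovw_ovw]
  exact h.symm

lemma pav_flip_mem {L : Finset (Fin N)} {j : Fin N} (hj : j ∈ L) (g : (Fin N → Bool) → ℝ)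
    (x : Fin N → Bool) : pav L g (flip j x) = pav L g x := by
  unfold pav
  simp only [ovw_flip_mem hj]

/-- conditional Efron-Stein inequality: variance explained by the coordinates in `A` -/
lemma cond_es (L A : Finset (Fin N)) (g : (Fin N → Bool) → ℝ) :
    avg (fun x => pav L g x ^ 2) - avg (fun x => pav (L ∪ A) g x ^ 2) ≤
      1 / 2 * ∑ i ∈ A, avg (fun x => (max (pav L g x - pav L g (flip i x)) 0) ^ 2) := by
  set G := pav L g with hG
  have h1 : ∀ x, var (fun y => G (ovw A y x)) ≤
      1 / 2 * ∑ i ∈ A, avg (fun y => (max (G (ovw A y x) - G (flip i (ovw A y x))) 0) ^ 2) := by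
    intro x
    refine (efron_stein_pos (fun y => G (ovw A y x))).trans (le_of_eq ?_)
    congr 1
    have hsub : A ⊆ univ := Finset.subset_univ _
    rw [← Finset.sum_subset hsub]
    · refine Finset.sum_congr rfl fun i hi => ?_
      simp only [ovw_flip_left hi]
    · intro i _ hi
      simp only [ovw_flip_left_not hi, sub_self, max_self]
      have := avg_const (N := N) ((0 : ℝ) ^ 2)
      simpa using this
  have h2 := avg_mono h1
  have e1 : avg (fun x => var (fun y => G (ovw A y x))) =
      avg (fun x => G x ^ 2) - avg (fun x => pav (L ∪ A) g x ^ 2) := by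
    unfold var
    rw [avg_sub, avg_avg_ovw A (fun z => G z ^ 2)]
    congr 2
    funext x
    rw [pav_union]
  have e2 : avg (fun x => 1 / 2 * ∑ i ∈ A,
      avg (fun y => (max (G (ovw A y x) - G (flip i (ovw A y x))) 0) ^ 2)) =
      1 / 2 * ∑ i ∈ A, avg (fun x => (max (G x - G (flip i x)) 0) ^ 2) := by
    rw [avg_const_mul, avg_sum]
    congr 1
    refine Finset.sum_congr rfl fun i _ => ?_
    exact avg_avg_ovw A (fun z => (max (G z - G (flip i z)) 0) ^ 2)
  rw [e1, e2] at h2
  exact h2

end

end Pool.Agent.H.MP_58d537_lc
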